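import Pool.Agent.Lib.Pae074a.Grp

set_option autoImplicit false

namespace Pool.Agent.Results.MP_ae074a_al.ContinuumSubvarieties

open Cardinal
open scoped commutatorElement

/-- `G` is abelian of exponent dividing `p`. -/
def ElemAb (p : ℕ) (G : Type) [Group G] : Prop :=
  (∀ x y : G, x * y = y * x) ∧ ∀ x : G, x ^ p = 1

/-- The class `A_p ^ 3` of all groups `G` with a series `1 ≤ G₁ ≤ G₂ ≤ G` of normal subgroups of
`G` in which every factor is abelian of exponent dividing `p`. -/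
def ApCubed (p : ℕ) : Set GrpCat.{0} :=
  {G | ∃ (G₁ G₂ : Subgroup G) (_ : G₁.Normal) (_ : G₂.Normal), G₁ ≤ G₂ ∧
    ElemAb p G₁ ∧ ElemAb p (G₂ ⧸ G₁.subgroupOf G₂) ∧ ElemAb p (G ⧸ G₂)}

/-- A variety of groups is the class of all groups which satisfy a given set of laws, a law
being an element of the free group on countably many generators all of whose values are `1`. -/
def IsVariety (C : Set GrpCat.{0}) : Prop :=
  ∃ W : Set (FreeGroup ℕ), C = {G : GrpCat.{0} | ∀ w ∈ W, ∀ f : ℕ → G, FreeGroup.lift f w = 1}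

section elementwise

variable {p : ℕ}

/-- Elementwise form of membership in `A_p ^ 3`. -/
def Elt (p : ℕ) (G : Type) [Group G] (G₁ G₂ : Subgroup G) : Prop :=
  (∀ x ∈ G₁, ∀ y ∈ G₁, x * y = y * x) ∧ (∀ x ∈ G₁, x ^ p = 1) ∧
  (∀ x ∈ G₂, ∀ y ∈ G₂, ⁅x, y⁆ ∈ G₁) ∧ (∀ x ∈ G₂, x ^ p ∈ G₁) ∧
  (∀ x y : G, ⁅x, y⁆ ∈ G₂) ∧ ∀ x : G, x ^ p ∈ G₂

theorem elemAb_quotient {G : Type} [Group G] (N : Subgroup G) [N.Normal] :
    ElemAb p (G ⧸ N) ↔ (∀ x y : G, ⁅x, y⁆ ∈ N) ∧ ∀ x : G, x ^ p ∈ N := by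
  constructor
  · rintro ⟨h1, h2⟩
    refine ⟨fun x y => ?_, fun x => ?_⟩
    · rw [← QuotientGroup.eq_one_iff]
      have h3 := h1 (x : G ⧸ N) (y : G ⧸ N)
      have h4 : ⁅(x : G ⧸ N), (y : G ⧸ N)⁆ = 1 := commutatorElement_eq_one_iff_mul_comm.mpr h3
      exact h4
    · rw [← QuotientGroup.eq_one_iff]
      exact h2 (x : G ⧸ N)
  · rintro ⟨h1, h2⟩
    refine ⟨fun x y => ?_, fun x => ?_⟩
    · induction x using QuotientGroup.induction_on with
      | H x =>
        induction y using QuotientGroup.induction_on with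
        | H y =>
          apply commutatorElement_eq_one_iff_mul_comm.mp
          have h3 : ((⁅x, y⁆ : G) : G ⧸ N) = 1 := (QuotientGroup.eq_one_iff _).mpr (h1 x y)
          exact h3
    · induction x using QuotientGroup.induction_on with
      | H x => exact (QuotientGroup.eq_one_iff _).mpr (h2 x)

theorem mem_apCubed_iff (G : GrpCat.{0}) : G ∈ ApCubed p ↔
    ∃ G₁ G₂ : Subgroup G, G₁.Normal ∧ G₂.Normal ∧ G₁ ≤ G₂ ∧ Elt p G G₁ G₂ := by
  constructor
  · rintro ⟨G₁, G₂, h1, h2, h3, h4, h5, h6⟩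
    rw [elemAb_quotient] at h5 h6
    refine ⟨G₁, G₂, h1, h2, h3, ?_, ?_, ?_, ?_, h6.1, h6.2⟩
    · intro x hx y hy
      exact congrArg Subtype.val (h4.1 ⟨x, hx⟩ ⟨y, hy⟩)
    · intro x hx
      exact congrArg Subtype.val (h4.2 ⟨x, hx⟩)
    · intro x hx y hy
      exact h5.1 ⟨x, hx⟩ ⟨y, hy⟩
    · intro x hx
      exact h5.2 ⟨x, hx⟩
  · rintro ⟨G₁, G₂, h1, h2, h3, e1, e2, e3, e4, e5, e6⟩
    refine ⟨G₁, G₂, h1, h2, h3, ⟨fun x y => ?_, fun x => ?_⟩, ?_, ?_⟩
    · exact Subtype.ext (e1 x x.2 y y.2)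
    · exact Subtype.ext (e2 x x.2)
    · rw [elemAb_quotient]
      exact ⟨fun x y => e3 x x.2 y y.2, fun x => e4 x x.2⟩
    · rw [elemAb_quotient]
      exact ⟨e5, e6⟩

end elementwise

section verbal

/-- Commutators and `p`-th powers. -/
def gen1 (p : ℕ) (G : Type) [Group G] : Set G := {z | (∃ x y : G, z = ⁅x, y⁆) ∨ ∃ x : G, z = x ^ p}

/-- The first verbal subgroup. -/
def ver1 (p : ℕ) (G : Type) [Group G] : Subgroup G := Subgroup.closure (gen1 p G)

/-- Commutators and `p`-th powers of elements of the first verbal subgroup. -/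
def gen2 (p : ℕ) (G : Type) [Group G] : Set G :=
  {z | (∃ x ∈ ver1 p G, ∃ y ∈ ver1 p G, z = ⁅x, y⁆) ∨ ∃ x ∈ ver1 p G, z = x ^ p}

/-- The second verbal subgroup. -/
def ver2 (p : ℕ) (G : Type) [Group G] : Subgroup G := Subgroup.closure (gen2 p G)

variable {p : ℕ} {G H : Type} [Group G] [Group H]

theorem gen1_map (φ : G →* H) {z : G} (hz : z ∈ gen1 p G) : φ z ∈ gen1 p H := by
  rcases hz with ⟨x, y, rfl⟩ | ⟨x, rfl⟩
  · left; exact ⟨φ x, φ y, map_commutatorElement φ x y⟩
  · right; exact ⟨φ x, map_pow φ x p⟩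

theorem ver1_map (φ : G →* H) {z : G} (hz : z ∈ ver1 p G) : φ z ∈ ver1 p H := by
  induction hz using Subgroup.closure_induction with
  | mem x hx => exact Subgroup.subset_closure (gen1_map φ hx)
  | one => rw [map_one]; exact one_mem _
  | mul x y _ _ hx hy => rw [map_mul]; exact mul_mem hx hy
  | inv x _ hx => rw [map_inv]; exact inv_mem hx

theorem gen2_map (φ : G →* H) {z : G} (hz : z ∈ gen2 p G) : φ z ∈ gen2 p H := by
  rcases hz with ⟨x, hx, y, hy, rfl⟩ | ⟨x, hx, rfl⟩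
  · left; exact ⟨φ x, ver1_map φ hx, φ y, ver1_map φ hy, map_commutatorElement φ x y⟩
  · right; exact ⟨φ x, ver1_map φ hx, map_pow φ x p⟩

/-- Interleaving two sequences. -/
theorem interleave (f g : ℕ → G) : ∃ (h : ℕ → G) (α β : FreeGroup ℕ →* FreeGroup ℕ),
    (∀ w, FreeGroup.lift h (α w) = FreeGroup.lift f w) ∧
    ∀ w, FreeGroup.lift h (β w) = FreeGroup.lift g w := by
  refine ⟨fun k => if k % 2 = 0 then f (k / 2) else g (k / 2),
    FreeGroup.map (fun k => 2 * k), FreeGroup.map (fun k => 2 * k + 1), ?_, ?_⟩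
  · intro w
    have : (FreeGroup.lift (fun k => if k % 2 = 0 then f (k / 2) else g (k / 2))).comp
        (FreeGroup.map (fun k => 2 * k)) = FreeGroup.lift f := by
      ext k
      simp
    exact DFunLike.congr_fun this w
  · intro w
    have : (FreeGroup.lift (fun k => if k % 2 = 0 then f (k / 2) else g (k / 2))).comp
        (FreeGroup.map (fun k => 2 * k + 1)) = FreeGroup.lift g := by
      ext k
      simp [Nat.add_mod, Nat.add_div]
    exact DFunLike.congr_fun this w

theorem ver1_lift {z : G} (hz : z ∈ ver1 p G) :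
    ∃ f : ℕ → G, ∃ w ∈ ver1 p (FreeGroup ℕ), FreeGroup.lift f w = z := by
  induction hz using Subgroup.closure_induction with
  | mem x hx =>
    rcases hx with ⟨a, b, rfl⟩ | ⟨a, rfl⟩
    · refine ⟨fun k => if k = 0 then a else b, ⁅FreeGroup.of 0, FreeGroup.of 1⁆,
        Subgroup.subset_closure (Or.inl ⟨_, _, rfl⟩), ?_⟩
      rw [map_commutatorElement]
      simp
    · refine ⟨fun _ => a, (FreeGroup.of 0) ^ p,
        Subgroup.subset_closure (Or.inr ⟨_, rfl⟩), ?_⟩
      rw [map_pow]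
      simp
  | one => exact ⟨fun _ => 1, 1, one_mem _, map_one _⟩
  | mul x y _ _ hx hy =>
    obtain ⟨f, w, hw, rfl⟩ := hx
    obtain ⟨g, v, hv, rfl⟩ := hy
    obtain ⟨h, α, β, h1, h2⟩ := interleave f g
    exact ⟨h, α w * β v, mul_mem (ver1_map α hw) (ver1_map β hv), by rw [map_mul, h1, h2]⟩
  | inv x _ hx =>
    obtain ⟨f, w, hw, rfl⟩ := hx
    exact ⟨f, w⁻¹, inv_mem hw, map_inv _ _⟩

theorem gen2_lift {z : G} (hz : z ∈ gen2 p G) :
    ∃ f : ℕ → G, ∃ w ∈ gen2 p (FreeGroup ℕ), FreeGroup.lift f w = z := by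
  rcases hz with ⟨x, hx, y, hy, rfl⟩ | ⟨x, hx, rfl⟩
  · obtain ⟨f, w, hw, rfl⟩ := ver1_lift hx
    obtain ⟨g, v, hv, rfl⟩ := ver1_lift hy
    obtain ⟨h, α, β, h1, h2⟩ := interleave f g
    exact ⟨h, ⁅α w, β v⁆, Or.inl ⟨_, ver1_map α hw, _, ver1_map β hv, rfl⟩, by
      rw [map_commutatorElement, h1, h2]⟩
  · obtain ⟨f, w, hw, rfl⟩ := ver1_lift hx
    exact ⟨f, w ^ p, Or.inr ⟨_, hw, rfl⟩, map_pow _ _ _⟩

theorem ver1_normal : (ver1 p G).Normal := by
  constructor
  intro n hn g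
  have : g * n * g⁻¹ = ⁅g, n⁆ * n := by rw [commutatorElement_def]; group
  rw [this]
  exact mul_mem (Subgroup.subset_closure (Or.inl ⟨_, _, rfl⟩)) hn

theorem ver2_normal : (ver2 p G).Normal := by
  constructor
  intro n hn g
  induction hn using Subgroup.closure_induction with
  | mem x hx =>
    apply Subgroup.subset_closure
    have := gen2_map (p := p) (MulAut.conj g).toMonoidHom hx
    simpa using this
  | one => simp
  | mul x y _ _ hx hy =>
    have : g * (x * y) * g⁻¹ = (g * x * g⁻¹) * (g * y * g⁻¹) := by group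
    rw [this]
    exact mul_mem hx hy
  | inv x _ hx =>
    have : g * x⁻¹ * g⁻¹ = (g * x * g⁻¹)⁻¹ := by group
    rw [this]
    exact inv_mem hx

theorem ver2_le : ver2 p G ≤ ver1 p G := by
  refine (Subgroup.closure_le _).mpr ?_
  rintro z (⟨x, _, y, _, rfl⟩ | ⟨x, _, rfl⟩)
  · exact Subgroup.subset_closure (Or.inl ⟨_, _, rfl⟩)
  · exact Subgroup.subset_closure (Or.inr ⟨_, rfl⟩)

/-- The defining laws of `A_p ^ 3`. -/
def laws (p : ℕ) : Set (FreeGroup ℕ) :=
  {w | (∃ s ∈ gen2 p (FreeGroup ℕ), ∃ t ∈ gen2 p (FreeGroup ℕ), w = ⁅s, t⁆) ∨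
    ∃ s ∈ gen2 p (FreeGroup ℕ), w = s ^ p}

theorem elt_ver1_le {G₁ G₂ : Subgroup G} (h : Elt p G G₁ G₂) : ver1 p G ≤ G₂ := by
  refine (Subgroup.closure_le _).mpr ?_
  rintro z (⟨x, y, rfl⟩ | ⟨x, rfl⟩)
  · exact h.2.2.2.2.1 x y
  · exact h.2.2.2.2.2 x

theorem elt_gen2 {G₁ G₂ : Subgroup G} (h : Elt p G G₁ G₂) {z : G} (hz : z ∈ gen2 p G) :
    z ∈ G₁ := by
  rcases hz with ⟨x, hx, y, hy, rfl⟩ | ⟨x, hx, rfl⟩
  · exact h.2.2.1 x (elt_ver1_le h hx) y (elt_ver1_le h hy)
  · exact h.2.2.2.1 x (elt_ver1_le h hx)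

theorem elt_of_laws (h : ∀ w ∈ laws p, ∀ f : ℕ → G, FreeGroup.lift f w = 1) :
    Elt p G (ver2 p G) (ver1 p G) := by
  have h1 : ∀ s ∈ gen2 p G, ∀ t ∈ gen2 p G, s * t = t * s := by
    intro s hs t ht
    obtain ⟨f, w, hw, rfl⟩ := gen2_lift hs
    obtain ⟨g, v, hv, rfl⟩ := gen2_lift ht
    obtain ⟨k, α, β, hα, hβ⟩ := interleave f g
    have h2 := h ⁅α w, β v⁆ (Or.inl ⟨_, gen2_map α hw, _, gen2_map β hv, rfl⟩) k
    rw [map_commutatorElement, hα, hβ] at h2
    exact commutatorElement_eq_one_iff_mul_comm.mp h2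
  have h2 : ∀ s ∈ gen2 p G, s ^ p = 1 := by
    intro s hs
    obtain ⟨f, w, hw, rfl⟩ := gen2_lift hs
    have h3 := h (w ^ p) (Or.inr ⟨w, hw, rfl⟩) f
    rwa [map_pow] at h3
  have h3 : ∀ x ∈ ver2 p G, ∀ y ∈ ver2 p G, x * y = y * x := by
    intro x hx y hy
    induction hx, hy using Subgroup.closure_induction₂ with
    | mem x y hx hy => exact h1 x hx y hy
    | one_left x _ => simp
    | one_right x _ => simp
    | mul_left x y z _ _ _ hxz hyz =>
      exact (Commute.mul_left (show Commute x z from hxz) (show Commute y z from hyz)).eq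
    | mul_right y z x _ _ _ hxy hxz =>
      exact (Commute.mul_right (show Commute x y from hxy) (show Commute x z from hxz)).eq
    | inv_left x y _ _ hxy => exact (Commute.inv_left (show Commute x y from hxy)).eq
    | inv_right x y _ _ hxy => exact (Commute.inv_right (show Commute x y from hxy)).eq
  refine ⟨h3, ?_, ?_, ?_, ?_, ?_⟩
  · intro x hx
    induction hx using Subgroup.closure_induction with
    | mem x hx => exact h2 x hx
    | one => exact one_pow p
    | mul x y hx hy ihx ihy =>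
      rw [Commute.mul_pow (show Commute x y from h3 x hx y hy), ihx, ihy, one_mul]
    | inv x _ ih => rw [inv_pow, ih, inv_one]
  · intro x hx y hy
    exact Subgroup.subset_closure (Or.inl ⟨x, hx, y, hy, rfl⟩)
  · intro x hx
    exact Subgroup.subset_closure (Or.inr ⟨x, hx, rfl⟩)
  · intro x y
    exact Subgroup.subset_closure (Or.inl ⟨x, y, rfl⟩)
  · intro x
    exact Subgroup.subset_closure (Or.inr ⟨x, rfl⟩)

theorem apCubed_eq (p : ℕ) :
    ApCubed p = {G : GrpCat.{0} | ∀ w ∈ laws p, ∀ f : ℕ → G, FreeGroup.lift f w = 1} := by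
  ext G
  rw [mem_apCubed_iff]
  constructor
  · rintro ⟨G₁, G₂, _, _, _, h⟩ w hw f
    rcases hw with ⟨s, hs, t, ht, rfl⟩ | ⟨s, hs, rfl⟩
    · rw [map_commutatorElement]
      exact commutatorElement_eq_one_iff_mul_comm.mpr
        (h.1 _ (elt_gen2 h (gen2_map _ hs)) _ (elt_gen2 h (gen2_map _ ht)))
    · rw [map_pow]
      exact h.2.1 _ (elt_gen2 h (gen2_map _ hs))
  · intro h
    exact ⟨ver2 p G, ver1 p G, ver2_normal, ver1_normal, ver2_le, elt_of_laws h⟩

end verbal

section family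

open Pool.Agent.Lib.Pae074a

variable {p : ℕ}

/-- The law of length `m`. -/
def lawWord (p m : ℕ) : FreeGroup ℕ :=
  lawVal p m (FreeGroup.of 0) (FreeGroup.of 1) (FreeGroup.of 2) (fun i => FreeGroup.of (i + 3))

theorem lawWord_iff {G : Type} [Group G] (m : ℕ) :
    (∀ f : ℕ → G, FreeGroup.lift f (lawWord p m) = 1) ↔
      ∀ (a b c : G) (x : ℕ → G), lawVal p m a b c x = 1 := by
  constructor
  · intro h a b c x
    have h1 := h (fun k => if k = 0 then a else if k = 1 then b else if k = 2 then c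
      else x (k - 3))
    unfold lawWord at h1
    rw [map_lawVal] at h1
    simpa using h1
  · intro h f
    unfold lawWord
    rw [map_lawVal]
    exact h _ _ _ _

/-- The subvariety of `A_p ^ 3` defined by the laws of length `n + 2` with `n ∈ X`. -/
def cls (p : ℕ) (X : Set ℕ) : Set GrpCat.{0} :=
  {G : GrpCat.{0} | ∀ w ∈ laws p ∪ (fun n => lawWord p (n + 2)) '' X,
    ∀ f : ℕ → G, FreeGroup.lift f w = 1}

theorem cls_isVariety (X : Set ℕ) : IsVariety (cls p X) := ⟨_, rfl⟩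

theorem cls_subset (X : Set ℕ) : cls p X ⊆ ApCubed p := by
  intro G hG
  rw [apCubed_eq]
  intro w hw f
  exact hG w (Or.inl hw) f

/-- The test groups belong to `A_p ^ 3`. -/
theorem gn_mem (p n : ℕ) [Fact p.Prime] : GrpCat.of (Gn p n) ∈ ApCubed p := by
  rw [mem_apCubed_iff]
  let K₂ : Subgroup (Gn p n) :=
    { carrier := {x | (x : Big p n).q = 0}
      mul_mem' := by
        intro x y hx hy
        simp only [Set.mem_ofPred_eq] at hx hy ⊢
        rw [Subgroup.coe_mul, mul_q, hx, hy, add_zero]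
      one_mem' := rfl
      inv_mem' := by
        intro x hx
        simp only [Set.mem_ofPred_eq] at hx ⊢
        rw [Subgroup.coe_inv, inv_q, hx, neg_zero] }
  let K₁ : Subgroup (Gn p n) :=
    { carrier := {x | (x : Big p n).q = 0 ∧ (x : Big p n).v = 0}
      mul_mem' := by
        rintro x y ⟨hx, hx'⟩ ⟨hy, hy'⟩
        refine ⟨?_, ?_⟩
        · rw [Subgroup.coe_mul, mul_q, hx, hy, add_zero]
        · rw [Subgroup.coe_mul, mul_v, hx', hy', hx, trs_zero, add_zero]
      one_mem' := ⟨rfl, rfl⟩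
      inv_mem' := by
        rintro x ⟨hx, hx'⟩
        refine ⟨?_, ?_⟩
        · rw [Subgroup.coe_inv, inv_q, hx, neg_zero]
        · rw [Subgroup.coe_inv, inv_v, hx', hx, neg_zero, trs_zero, neg_zero] }
  have hc : ∀ x y : Gn p n, ((⁅x, y⁆ : Gn p n) : Big p n) = ⁅(x : Big p n), (y : Big p n)⁆ :=
    fun x y => map_commutatorElement (Gn p n).subtype x y
  have hK₂c : ∀ x y : Gn p n, ⁅x, y⁆ ∈ K₂ := by
    intro x y
    show ((⁅x, y⁆ : Gn p n) : Big p n).q = 0
    rw [hc, comm_q]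
  have hK₁v : ∀ x e : Gn p n, e ∈ K₁ → ((⁅x, e⁆ : Gn p n) : Big p n).v = 0 := by
    intro x e he
    rw [hc, comm_v _ _ he.1, he.2]
    show trs _ 0 - 0 = 0
    rw [sub_zero]
    rfl
  have hn₂ : K₂.Normal := by
    constructor
    intro n hn g
    have : g * n * g⁻¹ = ⁅g, n⁆ * n := by rw [commutatorElement_def]; group
    rw [this]
    exact mul_mem (hK₂c g n) hn
  have hn₁ : K₁.Normal := by
    constructor
    intro n hn g
    have : g * n * g⁻¹ = ⁅g, n⁆ * n := by rw [commutatorElement_def]; group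
    rw [this]
    exact mul_mem ⟨hK₂c g n, hK₁v g n hn⟩ hn
  have hpow : ∀ (x : Big p n) (k : ℕ), x.q = 0 → (x ^ k).v = k • x.v := by
    intro x k hx
    rw [pow_v, hx]
    simp [trs_zero]
  have hpf : ∀ (x : Big p n) (k : ℕ), x.q = 0 → x.v = 0 → (x ^ k).f = k • x.f := by
    intro x k hx hx'
    induction k with
    | zero => simp [one_f]
    | succ k ih =>
      rw [pow_succ, mul_f, ih, hx, hx']
      funext u
      simp [trs_zero, add_mul]
  refine ⟨K₁, K₂, hn₁, hn₂, fun x hx => hx.1, ?_, ?_, ?_, ?_, ?_, ?_⟩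
  · rintro x ⟨hx, hx'⟩ y ⟨hy, hy'⟩
    apply Subtype.ext
    show (x : Big p n) * (y : Big p n) = (y : Big p n) * (x : Big p n)
    ext1
    · funext u
      simp only [mul_f, hx, hx', hy, hy', trs_zero, add_zero]
      rw [add_comm]
    · simp only [mul_v, hx, hx', hy, hy', trs_zero, add_zero]
    · simp only [mul_q, hx, hy]
  · rintro x ⟨hx, hx'⟩
    apply Subtype.ext
    show (x : Big p n) ^ p = 1
    ext1
    · rw [hpf _ _ hx hx', one_f]
      funext u
      simp
    · rw [hpow _ _ hx, hx', smul_zero]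
      rfl
    · rw [pow_p_q]
      rfl
  · intro x hx y hy
    refine ⟨hK₂c x y, ?_⟩
    show ((⁅x, y⁆ : Gn p n) : Big p n).v = 0
    rw [hc, comm_v _ _ hy, show (x : Big p n).q = 0 from hx, trs_zero, sub_self]
  · intro x hx
    refine ⟨?_, ?_⟩
    · show ((x ^ p : Gn p n) : Big p n).q = 0
      rw [Subgroup.coe_pow, pow_p_q]
    · show ((x ^ p : Gn p n) : Big p n).v = 0
      rw [Subgroup.coe_pow, hpow _ _ hx]
      funext j s
      simp
  · exact hK₂c
  · intro x
    show ((x ^ p : Gn p n) : Big p n).q = 0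
    rw [Subgroup.coe_pow, pow_p_q]

theorem cls_injective (hp : p.Prime) : Function.Injective (cls p) := by
  have : Fact p.Prime := ⟨hp⟩
  have key : ∀ X Y : Set ℕ, cls p X = cls p Y → X ⊆ Y := by
    intro X Y h n hn
    by_contra hnY
    have h1 : GrpCat.of (Gn p (n + 2)) ∈ cls p Y := by
      intro w hw f
      rcases hw with hw | ⟨m, hm, rfl⟩
      · have h2 := gn_mem p (n + 2)
        rw [apCubed_eq] at h2
        exact h2 w hw f
      · have hmn : m + 2 ≠ n + 2 := by
          intro h3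
          have : m = n := by omega
          exact hnY (this ▸ hm)
        exact (lawWord_iff (m + 2)).mpr (gn_law (m + 2) (by omega) hmn) f
    rw [← h] at h1
    obtain ⟨a, b, c, x, hx⟩ := gn_not_law (p := p) (n := n + 2) (by omega)
    exact hx ((lawWord_iff (n + 2)).mp (h1 _ (Or.inr ⟨n, hn, rfl⟩)) a b c x)
  intro X Y h
  exact Set.Subset.antisymm (key X Y h) (key Y X h.symm)

end family

/-- **Main theorem.** For every prime `p` the variety `A_p ^ 3` has exactly `2 ^ ℵ₀`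
subvarieties. -/
theorem result (p : ℕ) (hp : p.Prime) :
    #{C : Set GrpCat.{0} // IsVariety C ∧ C ⊆ ApCubed p} = 𝔠 := by
  apply le_antisymm
  · let F : {C : Set GrpCat.{0} // IsVariety C ∧ C ⊆ ApCubed p} → Set (FreeGroup ℕ) :=
      fun C => {w | ∀ G ∈ C.1, ∀ f : ℕ → G, FreeGroup.lift f w = 1}
    have hF : Function.Injective F := by
      have key : ∀ C : {C : Set GrpCat.{0} // IsVariety C ∧ C ⊆ ApCubed p},
          C.1 = {G : GrpCat.{0} | ∀ w ∈ F C, ∀ f : ℕ → G, FreeGroup.lift f w = 1} := by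
        rintro ⟨C, ⟨W, rfl⟩, hC⟩
        ext G
        constructor
        · intro hG w hw f
          exact hw G hG f
        · intro hG w hw f
          exact hG w (fun G' hG' f' => hG' w hw f') f
      intro C D h
      apply Subtype.ext
      rw [key C, key D, h]
    have h1 := Cardinal.lift_mk_le_lift_mk_of_injective hF
    have : Countable (FreeGroup ℕ) := by
      unfold FreeGroup
      infer_instance
    have h2 : #(Set (FreeGroup ℕ)) ≤ 𝔠 := by
      rw [Cardinal.mk_set, ← Cardinal.two_power_aleph0]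
      exact Cardinal.power_le_power_left two_ne_zero Cardinal.mk_le_aleph0
    have h3 := h1.trans (Cardinal.lift_le.mpr h2)
    rw [Cardinal.lift_continuum] at h3
    simpa using h3
  · let F : Set ℕ → {C : Set GrpCat.{0} // IsVariety C ∧ C ⊆ ApCubed p} :=
      fun X => ⟨cls p X, cls_isVariety X, cls_subset X⟩
    have hF : Function.Injective F := by
      intro X Y h
      exact cls_injective hp (congrArg Subtype.val h)
    have h1 := Cardinal.lift_mk_le_lift_mk_of_injective hF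
    rw [Cardinal.mk_set, Cardinal.mk_nat, Cardinal.two_power_aleph0,
      Cardinal.lift_continuum] at h1
    simpa using h1

end Pool.Agent.Results.MP_ae074a_al.ContinuumSubvarieties
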